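import Pool.Agent.TH546.SAW.Piece

/-! # Averages over the pieces of a self-avoiding walk -/

set_option autoImplicit false

namespace Pool.Agent.TH546.SAW

open scoped Classical
open Pool.Agent.W840.CT

/-- Jensen's inequality for the logarithm -/
theorem jensen {α : Type*} (S : Finset α) (hS : S.Nonempty) (F : α → ℝ)
    (hF : ∀ a ∈ S, 0 < F a) {B : ℝ} (hB : ∑ a ∈ S, F a ≤ B) :
    ∑ a ∈ S, Real.log (F a) ≤ S.card * (Real.log B - Real.log S.card) := by
  have hc : (0 : ℝ) < S.card := by exact_mod_cast hS.card_pos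
  have hB0 : 0 < B := (Finset.sum_pos hF hS).trans_le hB
  have h1 : ∀ a ∈ S, Real.log (F a) ≤
      (Real.log B - Real.log S.card) + (F a * (S.card / B) - 1) := by
    intro a ha
    have h2 := hF a ha
    have h3 : Real.log (F a * (S.card / B)) ≤ F a * (S.card / B) - 1 :=
      Real.log_le_sub_one_of_pos (by positivity)
    rw [Real.log_mul h2.ne' (by positivity), Real.log_div hc.ne' hB0.ne'] at h3
    linarith
  refine (Finset.sum_le_sum h1).trans ?_
  rw [Finset.sum_add_distrib, Finset.sum_sub_distrib, Finset.sum_sub_distrib, ← Finset.sum_mul]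
  simp only [Finset.sum_const, nsmul_eq_mul, mul_one]
  have h4 : (∑ a ∈ S, F a) * (S.card / B) ≤ B * (S.card / B) :=
    mul_le_mul_of_nonneg_right hB (by positivity)
  have h5 : B * (S.card / B) = (S.card : ℝ) := by field_simp
  linarith

/-- reindexing by residue classes -/
theorem sum_residue (m n : ℕ) (hm : 1 ≤ m) (f : ℕ → ℝ) :
    ∑ i ∈ Finset.range (n + 1 - m), f i =
      ∑ j ∈ Finset.range m, ∑ k ∈ Finset.range ((n - j) / m), f (j + k * m) := by
  rw [Finset.sum_sigma']
  symm
  refine Finset.sum_nbij' (fun q : (Σ _ : ℕ, ℕ) => q.1 + q.2 * m)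
    (fun i => (⟨i % m, i / m⟩ : (Σ _ : ℕ, ℕ))) ?_ ?_ ?_ ?_ ?_
  · rintro ⟨j, k⟩ h
    simp only [Finset.mem_sigma, Finset.mem_range] at h ⊢
    obtain ⟨h1, h2⟩ := h
    have h3 : (k + 1) * m ≤ n - j := by
      rw [← Nat.le_div_iff_mul_le hm]
      omega
    rw [add_mul, one_mul] at h3
    omega
  · intro i hi
    simp only [Finset.mem_sigma, Finset.mem_range] at hi ⊢
    refine ⟨Nat.mod_lt _ hm, ?_⟩
    have h1 := Nat.mod_add_div i m
    have h2 : (i / m + 1) * m ≤ n - i % m := by
      rw [add_mul, one_mul, mul_comm]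
      omega
    have := (Nat.le_div_iff_mul_le hm).2 h2
    omega
  · rintro ⟨j, k⟩ h
    simp only [Finset.mem_sigma, Finset.mem_range] at h
    obtain ⟨h1, h2⟩ := h
    have e1 : (j + k * m) % m = j := by
      rw [Nat.add_mul_mod_self_right, Nat.mod_eq_of_lt h1]
    have e2 : (j + k * m) / m = k := by
      rw [Nat.add_mul_div_right _ _ hm, Nat.div_eq_of_lt h1, zero_add]
    simp only [e1, e2]
  · intro i hi
    simp only
    have h1 := Nat.mod_add_div i m
    rw [mul_comm] at h1
    exact h1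
  · rintro ⟨j, k⟩ h
    rfl

theorem W_nonempty (n : ℕ) : (W n).Nonempty := by
  rw [← Finset.card_pos, card_W]
  have := cn_pos n
  exact_mod_cast lt_of_lt_of_le one_pos this

/-- the main average inequality: one constant for all `n ≥ m` -/
theorem avg : ∃ K : ℝ, 0 ≤ K ∧ ∀ m n : ℕ, 2 ≤ m → m ≤ n →
    ∀ g : ℕ → (Fin (m + 1) → ℤ × ℤ) → ℝ, (∀ i v, 0 ≤ g i v) →
    (∀ i, i + m ≤ n → ∀ ω ∈ W n, 0 < g i (pc i m ω)) →
    ∑ i ∈ Finset.range (n + 1 - m), ∑ ω ∈ W n, Real.log (g i (pc i m ω)) ≤
      cn n * (∑ i ∈ Finset.range (n + 1 - m),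
        (Real.log (∑ v ∈ W m, g i v) - m * Real.log H981.mu) + 2 * K * m * Real.log m ^ 3) := by
  obtain ⟨K, hK, hu⟩ := cn_upper
  refine ⟨K, hK, fun m n hm hmn g hg hpos => ?_⟩
  have hm1 : 1 ≤ m := by omega
  have hcn : (0 : ℝ) < cn n := lt_of_lt_of_le one_pos (cn_pos n)
  have hmu := mu_pos
  have hlogc : ∀ k ≤ m, Real.log (cn k) ≤ k * Real.log H981.mu + K * Real.log m ^ 3 := by
    intro k hk
    have h1 := hu m hm k hk
    have h2 : (0 : ℝ) < cn k := lt_of_lt_of_le one_pos (cn_pos k)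
    have h3 := Real.log_le_log h2 h1
    rw [Real.log_mul (by positivity) (Real.exp_pos _).ne', Real.log_exp, Real.log_pow] at h3
    exact h3
  have hlogn : n * Real.log H981.mu ≤ Real.log (cn n) := by
    have h1 := Real.log_le_log (by positivity) (mu_pow_le_cn n)
    rwa [Real.log_pow] at h1
  -- a residue class
  have hres : ∀ j ∈ Finset.range m,
      ∑ k ∈ Finset.range ((n - j) / m), ∑ ω ∈ W n, Real.log (g (j + k * m) (pc (j + k * m) m ω)) ≤
      cn n * (∑ k ∈ Finset.range ((n - j) / m),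
        (Real.log (∑ v ∈ W m, g (j + k * m) v) - m * Real.log H981.mu) +
          2 * K * Real.log m ^ 3) := by
    intro j hj
    rw [Finset.mem_range] at hj
    set N := (n - j) / m with hN
    set r := (n - j) % m with hr
    have hrm : r < m := Nat.mod_lt _ hm1
    have hn : n = j + N * m + r := by
      have := Nat.div_add_mod (n - j) m
      rw [← hN, ← hr, mul_comm] at this
      omega
    have hk : ∀ k ∈ Finset.range N, j + k * m + m ≤ n := by
      intro k hk
      rw [Finset.mem_range] at hk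
      have : (k + 1) * m ≤ N * m := Nat.mul_le_mul_right _ hk
      rw [add_mul, one_mul] at this
      omega
    have hZ : ∀ k ∈ Finset.range N, 0 < ∑ v ∈ W m, g (j + k * m) v := by
      intro k hkN
      obtain ⟨ω, hω⟩ := W_nonempty n
      refine Finset.sum_pos' (fun v _ => hg _ v) ⟨pc (j + k * m) m ω, ?_, ?_⟩
      · exact mem_W.2 (pc_mem (mem_W.1 hω) (hk k hkN))
      · exact hpos _ (hk k hkN) ω hω
    have h1 := sum_prod j m r (fun k v => g (j + k * m) v) (fun k v => hg _ v) N n hn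
    have h2 := jensen (W n) (W_nonempty n)
      (fun ω => ∏ k ∈ Finset.range N, g (j + k * m) (pc (j + k * m) m ω))
      (fun ω hω => Finset.prod_pos (fun k hkN => hpos _ (hk k hkN) ω hω)) h1
    have h3 : ∑ ω ∈ W n, Real.log (∏ k ∈ Finset.range N, g (j + k * m) (pc (j + k * m) m ω)) =
        ∑ k ∈ Finset.range N, ∑ ω ∈ W n, Real.log (g (j + k * m) (pc (j + k * m) m ω)) := by
      rw [Finset.sum_comm]
      refine Finset.sum_congr rfl (fun ω hω => ?_)
      exact Real.log_prod (fun k hkN => (hpos _ (hk k hkN) ω hω).ne')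
    rw [h3, card_W] at h2
    refine h2.trans (mul_le_mul_of_nonneg_left ?_ hcn.le)
    have hcj : (0 : ℝ) < cn j := lt_of_lt_of_le one_pos (cn_pos j)
    have hcr : (0 : ℝ) < cn r := lt_of_lt_of_le one_pos (cn_pos r)
    have hP : (0 : ℝ) < ∏ k ∈ Finset.range N, ∑ v ∈ W m, g (j + k * m) v :=
      Finset.prod_pos hZ
    rw [Real.log_mul (by positivity) hcr.ne', Real.log_mul hcj.ne' hP.ne',
      Real.log_prod (fun k hkN => (hZ k hkN).ne'), Finset.sum_sub_distrib, Finset.sum_const,
      Finset.card_range, nsmul_eq_mul]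
    have h4 := hlogc j hj.le
    have h5 := hlogc r hrm.le
    have h6 : (n : ℝ) = j + N * m + r := by exact_mod_cast hn
    rw [h6] at hlogn
    linarith
  rw [sum_residue m n hm1, sum_residue m n hm1]
  refine (Finset.sum_le_sum hres).trans ?_
  rw [← Finset.mul_sum, Finset.sum_add_distrib, Finset.sum_const, Finset.card_range,
    nsmul_eq_mul]
  refine mul_le_mul_of_nonneg_left (le_of_eq ?_) hcn.le
  ring

end Pool.Agent.TH546.SAW
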