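import Pool.Agent.TH546.SAW.Entropy

/-! # Loops closed by the contacts of a walk, uniformly in the length of the walk -/

set_option autoImplicit false

namespace Pool.Agent.TH546.SAW

open scoped Classical
open Pool.Agent.W840.CT

/-- contacts with lag at most `M` -/
noncomputable def CP (n M : ℕ) (ω : Fin (n + 1) → ℤ × ℤ) :
    Finset (Fin (n + 1) × Fin (n + 1)) :=
  (Finset.univ : Finset (Fin (n + 1) × Fin (n + 1))).filter
    (fun q => q.1.1 + 1 < q.2.1 ∧ q.2.1 ≤ q.1.1 + M ∧ adj (ω q.1) (ω q.2))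

/-- the total length of the loops closed by the contacts with lag at most `M` -/
noncomputable def LL (n M : ℕ) (ω : Fin (n + 1) → ℤ × ℤ) : ℕ :=
  ∑ q ∈ CP n M ω, (q.2.1 - q.1.1)

/-- contacts with lag at most `M` across time `t` -/
noncomputable def TM (n M t : ℕ) (ω : Fin (n + 1) → ℤ × ℤ) : ℕ :=
  ((CP n M ω).filter (fun q => q.1.1 < t ∧ t < q.2.1)).card

theorem LL_le (n M : ℕ) (ω : Fin (n + 1) → ℤ × ℤ) :
    LL n M ω ≤ 2 * ∑ t ∈ Finset.range n, TM n M t ω := by
  have h3 : ∑ q ∈ CP n M ω, ((Finset.range n).filter (fun t => q.1.1 < t ∧ t < q.2.1)).card =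
      ∑ t ∈ Finset.range n, TM n M t ω := by
    unfold TM
    simp only [Finset.card_filter]
    exact Finset.sum_comm
  rw [← h3, Finset.mul_sum]
  unfold LL
  refine Finset.sum_le_sum (fun q hq => ?_)
  obtain ⟨i, j⟩ := q
  have hj := j.2
  simp only [CP, Finset.mem_filter, Finset.mem_univ, true_and] at hq ⊢
  obtain ⟨a1, a2, a3⟩ := hq
  have h4 : j.1 - i.1 - 1 ≤ ((Finset.range n).filter (fun t => i.1 < t ∧ t < j.1)).card := by
    calc j.1 - i.1 - 1 = (Finset.Ioo i.1 j.1).card := (Nat.card_Ioo _ _).symm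
      _ ≤ _ := by
          refine Finset.card_le_card ?_
          intro t ht
          rw [Finset.mem_Ioo] at ht
          rw [Finset.mem_filter, Finset.mem_range]
          omega
  omega

theorem TM_le_TT (n M t : ℕ) (ω : Fin (n + 1) → ℤ × ℤ) : TM n M t ω ≤ TT n t ω := by
  unfold TM TT CP
  refine Finset.card_le_card ?_
  intro q hq
  simp only [Finset.mem_filter, Finset.mem_univ, true_and] at hq ⊢
  exact ⟨hq.2.1, hq.2.2, hq.1.2.2⟩

theorem TM_le_window {n M i : ℕ} {ω : Fin (n + 1) → ℤ × ℤ} (hi : i + 2 * M ≤ n) :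
    TM n M (i + M) ω ≤ TT (2 * M) M (pc i (2 * M) ω) := by
  unfold TM TT
  refine Finset.card_le_card_of_injOn (fun q =>
    ((⟨min (q.1.1 - i) (2 * M), by omega⟩ : Fin (2 * M + 1)),
     (⟨min (q.2.1 - i) (2 * M), by omega⟩ : Fin (2 * M + 1)))) ?_ ?_
  · rintro ⟨a, b⟩ hq
    simp only [CP, Finset.coe_filter, Finset.mem_filter, Finset.mem_univ, true_and,
      Set.mem_ofPred_eq] at hq ⊢
    obtain ⟨⟨a1, a2, a3⟩, a4, a5⟩ := hq
    have e1 : min (a.1 - i) (2 * M) = a.1 - i := by omega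
    have e2 : min (b.1 - i) (2 * M) = b.1 - i := by omega
    refine ⟨by omega, by omega, ?_⟩
    unfold pc
    simp only [e1, e2]
    rw [adj_sub, show i + (a.1 - i) = a.1 by omega, show i + (b.1 - i) = b.1 by omega,
      ex_val, ex_val]
    exact a3
  · rintro ⟨a, b⟩ hq ⟨a', b'⟩ hq' h
    simp only [CP, Finset.coe_filter, Finset.mem_filter, Finset.mem_univ, true_and,
      Set.mem_ofPred_eq] at hq hq'
    simp only [Prod.mk.injEq, Fin.mk.injEq] at h ⊢
    constructor
    · apply Fin.ext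
      omega
    · apply Fin.ext
      omega

/-- all the times: windows inside, and the times close to the two ends -/
theorem sum_TM_le {n M : ℕ} {ω : Fin (n + 1) → ℤ × ℤ} {J : ℝ}
    (h : ∀ t, (TT n t ω : ℝ) ≤ J) (hM : 2 * M ≤ n) :
    (∑ t ∈ Finset.range n, (TM n M t ω : ℝ)) ≤
      ∑ i ∈ Finset.range (n + 1 - 2 * M), (TT (2 * M) M (pc i (2 * M) ω) : ℝ) + 2 * M * J := by
  have hJ : 0 ≤ J := (Nat.cast_nonneg _).trans (h 0)
  have hTM : ∀ t, (TM n M t ω : ℝ) ≤ J := fun t =>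
    (Nat.cast_le.2 (TM_le_TT n M t ω)).trans (h t)
  have h1 : ∑ t ∈ Finset.range n, (TM n M t ω : ℝ) ≤
      ∑ t ∈ Finset.range (M + ((n + 1 - 2 * M) + M)), (TM n M t ω : ℝ) := by
    refine Finset.sum_le_sum_of_subset_of_nonneg ?_ (fun _ _ _ => Nat.cast_nonneg _)
    intro t ht
    rw [Finset.mem_range] at ht ⊢
    omega
  refine h1.trans ?_
  rw [Finset.sum_range_add, Finset.sum_range_add]
  have h2 : ∑ t ∈ Finset.range M, (TM n M t ω : ℝ) ≤ M * J := by
    have := Finset.sum_le_sum (s := Finset.range M) (fun t _ => hTM t)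
    rwa [Finset.sum_const, Finset.card_range, nsmul_eq_mul] at this
  have h3 : ∑ t ∈ Finset.range M, (TM n M (M + (n + 1 - 2 * M + t)) ω : ℝ) ≤ M * J := by
    have := Finset.sum_le_sum (s := Finset.range M)
      (fun t _ => hTM (M + (n + 1 - 2 * M + t)))
    rwa [Finset.sum_const, Finset.card_range, nsmul_eq_mul] at this
  have h4 : ∑ i ∈ Finset.range (n + 1 - 2 * M), (TM n M (M + i) ω : ℝ) ≤
      ∑ i ∈ Finset.range (n + 1 - 2 * M), (TT (2 * M) M (pc i (2 * M) ω) : ℝ) := by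
    refine Finset.sum_le_sum (fun i hi => ?_)
    rw [Finset.mem_range] at hi
    rw [add_comm M i]
    exact_mod_cast TM_le_window (by omega)
  linarith

theorem cn_add_le (a b : ℕ) : (cn (a + b) : ℝ) ≤ cn a * cn b := by
  have h := sum_split (n := a + b) rfl (fun _ : Fin (a + 1) → ℤ × ℤ => (1 : ℝ))
    (fun _ : Fin (b + 1) → ℤ × ℤ => (1 : ℝ)) (fun _ => zero_le_one) (fun _ => zero_le_one)
  simp only [mul_one, Finset.sum_const, nsmul_eq_mul, card_W] at h
  exact h

theorem TT_le_sq (n t : ℕ) (ω : Fin (n + 1) → ℤ × ℤ) : TT n t ω ≤ (n + 1) * (n + 1) := by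
  unfold TT
  have h1 := Finset.card_filter_le (Finset.univ : Finset (Fin (n + 1) × Fin (n + 1)))
    (fun q => q.1.1 < t ∧ t < q.2.1 ∧ adj (ω q.1) (ω q.2))
  rw [Finset.card_univ, Fintype.card_prod, Fintype.card_fin] at h1
  exact h1

/-- exponential moment of the number of contacts across the middle -/
theorem exp_moment (s : ℕ) :
    ∑ v ∈ W (2 * s), (2 : ℝ) ^ ((TT (2 * s) s v - 204) / 294912) ≤
      2305 * (cn s : ℝ) ^ 2 := by
  set R := (2 * s + 1) * (2 * s + 1) + 1 with hR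
  have hTT : ∀ v : Fin (2 * s + 1) → ℤ × ℤ, TT (2 * s) s v < R := by
    intro v
    have := TT_le_sq (2 * s) s v
    omega
  have h1 : ∀ v ∈ W (2 * s), (2 : ℝ) ^ ((TT (2 * s) s v - 204) / 294912) ≤
      (∑ r ∈ Finset.range R, if 294912 * r + 204 ≤ TT (2 * s) s v then (2 : ℝ) ^ r else 0)
        + 1 := by
    intro v _
    set x := TT (2 * s) s v with hx
    have hxR := hTT v
    rw [← hx] at hxR
    have hnn : ∀ r ∈ Finset.range R, (0 : ℝ) ≤
        if 294912 * r + 204 ≤ x then (2 : ℝ) ^ r else 0 := by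
      intro r _
      split_ifs
      · positivity
      · exact le_rfl
    rcases Nat.lt_or_ge x 204 with h2 | h2
    · rw [Nat.sub_eq_zero_of_le h2.le, Nat.zero_div, pow_zero]
      have := Finset.sum_nonneg hnn
      linarith
    · set r := (x - 204) / 294912 with hr
      have h3 : 294912 * r + 204 ≤ x := by
        have := Nat.mul_div_le (x - 204) 294912
        rw [← hr] at this
        omega
      have h4 : r ∈ Finset.range R := by
        rw [Finset.mem_range]
        omega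
      have h5 := Finset.single_le_sum hnn h4
      rw [if_pos h3] at h5
      linarith
  refine (Finset.sum_le_sum h1).trans ?_
  rw [Finset.sum_add_distrib, Finset.sum_comm]
  simp only [Finset.sum_const, nsmul_eq_mul, mul_one]
  rw [card_W]
  have h2 : ∀ r ∈ Finset.range R, ∑ v ∈ W (2 * s),
      (if 294912 * r + 204 ≤ TT (2 * s) s v then (2 : ℝ) ^ r else 0) ≤
      1152 * (cn s : ℝ) ^ 2 * (1 / 2) ^ r := by
    intro r _
    rw [← Finset.sum_filter, Finset.sum_const, nsmul_eq_mul, card_filter_W]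
    have h3 := TT_count (2 * s) s r (by omega)
    rw [show 2 * s - s = s by omega] at h3
    have h4 : (4 : ℝ) ^ r * (({ω | SW (2 * s) ω ∧ 294912 * r + 204 ≤ TT (2 * s) s ω} :
      Set (Fin (2 * s + 1) → ℤ × ℤ)).ncard : ℝ) ≤ 1152 * ((cn s : ℝ) * cn s) := by
      exact_mod_cast h3
    set X := (({ω | SW (2 * s) ω ∧ 294912 * r + 204 ≤ TT (2 * s) s ω} :
      Set (Fin (2 * s + 1) → ℤ × ℤ)).ncard : ℝ) with hX
    have e : (4 : ℝ) ^ r = 2 ^ r * 2 ^ r := by rw [← mul_pow]; norm_num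
    have h5 : X * 2 ^ r = (4 ^ r * X) * (1 / 2) ^ r := by
      rw [e]
      have : (2 : ℝ) ^ r * (1 / 2) ^ r = 1 := by rw [← mul_pow]; norm_num
      calc X * 2 ^ r = 2 ^ r * X * 1 := by ring
        _ = 2 ^ r * X * ((2 : ℝ) ^ r * (1 / 2) ^ r) := by rw [this]
        _ = _ := by ring
    rw [h5]
    have h6 : (4 : ℝ) ^ r * X ≤ 1152 * (cn s : ℝ) ^ 2 := by
      rw [sq]; exact h4
    exact mul_le_mul_of_nonneg_right h6 (by positivity)
  have h3 := Finset.sum_le_sum h2
  rw [← Finset.mul_sum] at h3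
  have h4 : ∑ r ∈ Finset.range R, (1 / 2 : ℝ) ^ r ≤ 2 := by
    have := geom_sum_eq (show (1 / 2 : ℝ) ≠ 1 by norm_num) R
    rw [this]
    have h5 : (0 : ℝ) ≤ (1 / 2) ^ R := by positivity
    have e : ((1 / 2 : ℝ) ^ R - 1) / (1 / 2 - 1) = 2 - 2 * (1 / 2) ^ R := by
      field_simp
      ring
    rw [e]
    linarith
  have h5 : 1152 * (cn s : ℝ) ^ 2 * ∑ r ∈ Finset.range R, (1 / 2 : ℝ) ^ r ≤
      1152 * (cn s : ℝ) ^ 2 * 2 := mul_le_mul_of_nonneg_left h4 (by positivity)
  have h6 : (cn (2 * s) : ℝ) ≤ (cn s : ℝ) ^ 2 := by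
    have := cn_add_le s s
    rw [show s + s = 2 * s by ring] at this
    rw [sq]
    exact this
  linarith

/-- contacts across the middle of the windows -/
theorem window_mean : ∃ K : ℝ, 0 ≤ K ∧ ∀ s n : ℕ, 2 ≤ s → 2 * s ≤ n →
    ∑ i ∈ Finset.range (n + 1 - 2 * s), ∑ ω ∈ W n, (TT (2 * s) s (pc i (2 * s) ω) : ℝ) ≤
      cn n * (K * n * Real.log s ^ 3) := by
  obtain ⟨K, hK, h⟩ := avg2
  obtain ⟨K', hK', hu⟩ := cn_upper
  refine ⟨294912 * (100 + 3200 * K' + 1600 * K) * 2, by positivity, fun s n hs hn => ?_⟩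
  obtain ⟨hL1, hL2⟩ := L_ge hs
  have hs' : (2 : ℝ) ≤ s := by exact_mod_cast hs
  have hmu := mu_pos
  have hcn : (0 : ℝ) < cn n := lt_of_lt_of_le one_pos (cn_pos n)
  have hc2 : (0 : ℝ) < cn s := lt_of_lt_of_le one_pos (cn_pos _)
  have hL4 : Real.log ((2 * s : ℕ) : ℝ) ^ 3 ≤ 800 * Real.log s ^ 3 := by
    have := log_cube_mul (m := s) (j := 2) hs (by norm_num)
    push_cast at this ⊢
    linarith
  have hlogc : Real.log (cn s) ≤ s * Real.log H981.mu + K' * Real.log s ^ 3 := by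
    have h4 := Real.log_le_log hc2 (hu s hs s le_rfl)
    rw [Real.log_mul (by positivity) (Real.exp_pos _).ne', Real.log_exp, Real.log_pow] at h4
    exact h4
  have h3 := h (2 * s) n (by omega) hn
    (fun _ v => (2 : ℝ) ^ ((TT (2 * s) s v - 204) / 294912))
    (fun i v => by positivity) (fun i hi ω hω => by positivity)
    (9 + 2 * K' * Real.log s ^ 3) (by positivity) (by
      intro i hi
      have h5 : 0 < ∑ v ∈ W (2 * s), (2 : ℝ) ^ ((TT (2 * s) s v - 204) / 294912) :=
        Finset.sum_pos (fun v _ => by positivity) (W_nonempty _)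
      have h6 := Real.log_le_log h5 (exp_moment s)
      rw [Real.log_mul (by norm_num) (by positivity), Real.log_pow] at h6
      have h7 : Real.log 2305 ≤ 8.4 := by
        calc Real.log 2305 ≤ Real.log (2 ^ 12) := Real.log_le_log (by norm_num) (by norm_num)
          _ = 12 * Real.log 2 := by rw [Real.log_pow]; norm_num
          _ ≤ 8.4 := by have := log_two_bd.2; linarith
      have e4 : ((2 * s : ℕ) : ℝ) * Real.log H981.mu = 2 * (s * Real.log H981.mu) := by
        push_cast; ring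
      have e2 : (((2 : ℕ)) : ℝ) = 2 := by norm_num
      rw [e2] at h6
      rw [e4]
      linarith)
  set X := fun i ω => (TT (2 * s) s (pc (n := n) i (2 * s) ω) - 204) / 294912 with hX
  have h8 : ∀ i ω, (TT (2 * s) s (pc (n := n) i (2 * s) ω) : ℝ) ≤
      294912 / Real.log 2 * Real.log ((2 : ℝ) ^ X i ω) + 300000 := by
    intro i ω
    rw [Real.log_pow]
    have hl2 := log_two_bd.1
    have e : 294912 / Real.log 2 * (X i ω * Real.log 2) = 294912 * (X i ω : ℝ) := by
      field_simp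
    rw [e]
    have h9 : TT (2 * s) s (pc (n := n) i (2 * s) ω) ≤ 294912 * X i ω + 300000 := by
      rw [hX]
      simp only
      set y := TT (2 * s) s (pc (n := n) i (2 * s) ω)
      have := Nat.lt_mul_div_succ (y - 204) (show 0 < 294912 by norm_num)
      omega
    exact_mod_cast h9
  have h11 : ∑ i ∈ Finset.range (n + 1 - 2 * s), ∑ ω ∈ W n,
        (TT (2 * s) s (pc i (2 * s) ω) : ℝ) ≤
      294912 / Real.log 2 * ∑ i ∈ Finset.range (n + 1 - 2 * s), ∑ ω ∈ W n,
        Real.log ((2 : ℝ) ^ X i ω) + n * (cn n * 300000) := by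
    calc _ ≤ ∑ i ∈ Finset.range (n + 1 - 2 * s), ∑ ω ∈ W n,
          (294912 / Real.log 2 * Real.log ((2 : ℝ) ^ X i ω) + 300000) :=
          Finset.sum_le_sum (fun i _ => Finset.sum_le_sum (fun ω _ => h8 i ω))
      _ = 294912 / Real.log 2 * ∑ i ∈ Finset.range (n + 1 - 2 * s), ∑ ω ∈ W n,
        Real.log ((2 : ℝ) ^ X i ω) + ((n + 1 - 2 * s : ℕ) : ℝ) * (cn n * 300000) := by
          simp only [Finset.sum_add_distrib, ← Finset.mul_sum, Finset.sum_const, nsmul_eq_mul,
            Finset.card_range, card_W]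
          ring
      _ ≤ _ := by
          have : (((n + 1 - 2 * s : ℕ)) : ℝ) ≤ n := by
            exact_mod_cast (show n + 1 - 2 * s ≤ n by omega)
          gcongr
  refine h11.trans ?_
  have h13 : 294912 / Real.log 2 * ∑ i ∈ Finset.range (n + 1 - 2 * s), ∑ ω ∈ W n,
        Real.log ((2 : ℝ) ^ X i ω) ≤ 294912 / Real.log 2 * (cn n * (n * (9 + 2 * K' *
        Real.log s ^ 3 + K * Real.log ((2 * s : ℕ) : ℝ) ^ 3))) := by
    have hl2 := log_two_bd.1
    exact mul_le_mul_of_nonneg_left h3 (by positivity)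
  refine (add_le_add_left h13 _).trans ?_
  have h14 : 294912 / Real.log 2 ≤ 294912 * 1.5 := by
    have hl2 := log_two_bd.1
    rw [div_le_iff₀ (by linarith)]
    nlinarith
  have h15 : 9 + 2 * K' * Real.log s ^ 3 + K * Real.log ((2 * s : ℕ) : ℝ) ^ 3 ≤
      (30 + 3200 * K' + 1600 * K) * Real.log s ^ 3 := by
    have e2 := mul_le_mul_of_nonneg_left hL4 hK
    have e3 : 0 ≤ K' * Real.log s ^ 3 := by positivity
    have e4 : 0 ≤ K * Real.log s ^ 3 := by positivity
    linarith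
  calc 294912 / Real.log 2 * (cn n * (n * (9 + 2 * K' *
        Real.log s ^ 3 + K * Real.log ((2 * s : ℕ) : ℝ) ^ 3))) +
        n * (cn n * 300000)
      ≤ 294912 * 1.5 * (cn n * (n * ((30 + 3200 * K' + 1600 * K) * Real.log s ^ 3))) +
        n * (cn n * (294912 * 1.5 * (10 * Real.log s ^ 3))) := by
        have : (0 : ℝ) ≤ Real.log ((2 * s : ℕ) : ℝ) := Real.log_natCast_nonneg _
        gcongr
        nlinarith
    _ = 294912 * 1.5 * (40 + 3200 * K' + 1600 * K) * (cn n * n * Real.log s ^ 3) := by ring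
    _ ≤ 294912 * (100 + 3200 * K' + 1600 * K) * 2 * (cn n * n * Real.log s ^ 3) := by
        have h16 : (0 : ℝ) ≤ cn n * n * Real.log s ^ 3 := by positivity
        refine mul_le_mul_of_nonneg_right ?_ h16
        nlinarith
    _ = _ := by ring

end Pool.Agent.TH546.SAW
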