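import Pool.Agent.TH546.SAW.Loops

/-! # Mean length of the loops, and contacts at distance more than `m` -/

set_option autoImplicit false

namespace Pool.Agent.TH546.SAW

open scoped Classical
open Pool.Agent.W840.CT

/-- the maximal number of contacts across a time has mean at most `K log³ n` -/
theorem max_mean : ∃ K : ℝ, 0 ≤ K ∧ ∀ n : ℕ, 2 ≤ n →
    ∃ J : (Fin (n + 1) → ℤ × ℤ) → ℝ, (∀ ω t, (TT n t ω : ℝ) ≤ J ω) ∧
    ∑ ω ∈ W n, J ω ≤ cn n * (K * Real.log n ^ 3) := by
  obtain ⟨K, hK, h⟩ := tail_all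
  refine ⟨8 * K + 10, by positivity, fun n hn => ?_⟩
  obtain ⟨h1, h2⟩ := L_ge hn
  have hn' : (2 : ℝ) ≤ n := by exact_mod_cast hn
  set L := Real.log n with hL
  set B := K * (L ^ 3 + 3 * L) with hB
  have hB0 : 0 ≤ B := by positivity
  refine ⟨fun ω => if (∃ t, B < TT n t ω) then ((n : ℝ) + 1) * (n + 1) else B, ?_, ?_⟩
  · intro ω t
    show (TT n t ω : ℝ) ≤ if (∃ t, B < TT n t ω) then ((n : ℝ) + 1) * (n + 1) else B
    split_ifs with h3
    · exact_mod_cast TT_le_sq n t ω
    · push Not at h3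
      exact h3 t
  · have h3 := h n hn (3 * L) (by positivity)
    rw [← card_filter_W] at h3
    calc ∑ ω ∈ W n, (if (∃ t, B < TT n t ω) then ((n : ℝ) + 1) * (n + 1) else B)
        ≤ ∑ ω ∈ W n, ((if (∃ t, B < TT n t ω) then ((n : ℝ) + 1) * (n + 1) else 0) + B) := by
          refine Finset.sum_le_sum (fun ω _ => ?_)
          split_ifs
          · linarith
          · linarith
      _ = (((W n).filter (fun ω => ∃ t, B < TT n t ω)).card : ℝ) * (((n : ℝ) + 1) * (n + 1)) +
          cn n * B := by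
          rw [Finset.sum_add_distrib, ← Finset.sum_filter]
          simp only [Finset.sum_const, nsmul_eq_mul]
          rw [card_W]
      _ ≤ (Real.exp (-(3 * L)) * cn n) * (((n : ℝ) + 1) * (n + 1)) + cn n * B := by
          gcongr
      _ = cn n * (Real.exp (-(3 * L)) * (((n : ℝ) + 1) * (n + 1)) + B) := by ring
      _ ≤ cn n * ((8 * K + 10) * L ^ 3) := by
          refine mul_le_mul_of_nonneg_left ?_ (Nat.cast_nonneg _)
          have h4 : Real.exp (-(3 * L)) * (((n : ℝ) + 1) * (n + 1)) ≤ 3 := by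
            have h5 : Real.exp (3 * L) = (n : ℝ) ^ 3 := by
              rw [show 3 * L = L + L + L by ring, Real.exp_add, Real.exp_add, hL,
                Real.exp_log (by linarith)]
              ring
            rw [Real.exp_neg, h5, inv_mul_le_iff₀ (by positivity)]
            have h6 : ((n : ℝ) + 1) * (n + 1) ≤ 3 * (n : ℝ) ^ 2 := by nlinarith
            have h7 : (n : ℝ) ^ 2 * 1 ≤ (n : ℝ) ^ 2 * n :=
              mul_le_mul_of_nonneg_left (by linarith) (by positivity)
            have h8 : (n : ℝ) ^ 3 = (n : ℝ) ^ 2 * n := by ring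
            linarith
          have h5 : L ≤ 2.2 * L ^ 3 := by
            have : L ^ 3 = L ^ 2 * L := by ring
            have : (0.47 : ℝ) ≤ L ^ 2 := by nlinarith
            nlinarith
          have h6 : K * L ≤ K * (2.2 * L ^ 3) := mul_le_mul_of_nonneg_left h5 hK.le
          rw [hB]
          nlinarith

/-- the logarithm of a larger number -/
theorem log_ratio {m n : ℕ} (hm : 2 ≤ m) (hmn : m ≤ n) :
    m * Real.log n ^ 3 ≤ 216 * n * Real.log m ^ 3 := by
  obtain ⟨hL1, hL2⟩ := L_ge hm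
  have hm' : (2 : ℝ) ≤ m := by exact_mod_cast hm
  have hmn' : (m : ℝ) ≤ n := by exact_mod_cast hmn
  have hn0 : (0 : ℝ) < n := by linarith
  set R : ℝ := (n : ℝ) / m with hR
  have hR1 : 1 ≤ R := by rw [hR, le_div_iff₀ (by linarith)]; linarith
  set y := R ^ (1 / 3 : ℝ) with hy
  have hy1 : 1 ≤ y := Real.one_le_rpow hR1 (by norm_num)
  have hy3 : y ^ 3 = R := by
    rw [hy, ← Real.rpow_natCast, ← Real.rpow_mul (by linarith)]
    norm_num
  have hlogR : Real.log R ≤ 3 * (y - 1) := by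
    have h1 : Real.log R = 3 * Real.log y := by
      rw [hy, Real.log_rpow (by linarith)]
      ring
    have h2 := Real.log_le_sub_one_of_pos (show 0 < y by linarith)
    linarith
  have hlogn : Real.log n ≤ 6 * y * Real.log m := by
    have h1 : (n : ℝ) = m * R := by rw [hR]; field_simp
    rw [h1, Real.log_mul (by linarith) (by linarith)]
    nlinarith
  have hlogn3 : Real.log n ^ 3 ≤ 216 * y ^ 3 * Real.log m ^ 3 := by
    calc Real.log n ^ 3 ≤ (6 * y * Real.log m) ^ 3 :=
          pow_le_pow_left₀ (Real.log_natCast_nonneg _) hlogn 3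
      _ = _ := by ring
  calc m * Real.log n ^ 3 ≤ m * (216 * y ^ 3 * Real.log m ^ 3) := by gcongr
    _ = 216 * (m * R) * Real.log m ^ 3 := by rw [hy3]; ring
    _ = _ := by
        have h1 : m * R = n := by rw [hR]; field_simp
        rw [h1]

/-- the mean length of the loops closed by the contacts with lag at most `M` -/
theorem loop_mean : ∃ K : ℝ, 0 ≤ K ∧ ∀ M n : ℕ, 2 ≤ M → 2 ≤ n →
    ∑ ω ∈ W n, (LL n M ω : ℝ) ≤ cn n * (K * n * Real.log M ^ 3) := by
  obtain ⟨K, hK, hwin⟩ := window_mean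
  obtain ⟨K', hK', hmax⟩ := max_mean
  refine ⟨2 * K + 1000 * K', by positivity, fun M n hM hn => ?_⟩
  obtain ⟨J, hJ, hJs⟩ := hmax n hn
  obtain ⟨hL1, hL2⟩ := L_ge hM
  have hM' : (2 : ℝ) ≤ M := by exact_mod_cast hM
  have hLL : ∀ ω, (LL n M ω : ℝ) ≤ 2 * ∑ t ∈ Finset.range n, (TM n M t ω : ℝ) := by
    intro ω
    exact_mod_cast LL_le n M ω
  rcases Nat.lt_or_ge n (2 * M) with h | h
  · have h1 : ∀ ω ∈ W n, (LL n M ω : ℝ) ≤ 2 * (n * J ω) := by
      intro ω _
      refine (hLL ω).trans (mul_le_mul_of_nonneg_left ?_ (by norm_num))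
      have h2 := Finset.sum_le_sum (s := Finset.range n)
        (fun t _ => (Nat.cast_le.2 (TM_le_TT n M t ω)).trans (hJ ω t))
      rwa [Finset.sum_const, Finset.card_range, nsmul_eq_mul] at h2
    have hlog : Real.log n ^ 3 ≤ 8 * Real.log M ^ 3 := by
      have h3 : Real.log n ≤ 2 * Real.log M := by
        calc Real.log n ≤ Real.log (M * M) := by
              refine Real.log_le_log (by positivity) ?_
              have : (n : ℝ) ≤ 2 * M := by exact_mod_cast h.le
              nlinarith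
          _ = 2 * Real.log M := by rw [Real.log_mul (by positivity) (by positivity)]; ring
      calc Real.log n ^ 3 ≤ (2 * Real.log M) ^ 3 :=
            pow_le_pow_left₀ (Real.log_natCast_nonneg _) h3 3
        _ = _ := by ring
    calc ∑ ω ∈ W n, (LL n M ω : ℝ) ≤ ∑ ω ∈ W n, 2 * (n * J ω) := Finset.sum_le_sum h1
      _ = 2 * n * ∑ ω ∈ W n, J ω := by rw [Finset.mul_sum]; congr 1; ext ω; ring
      _ ≤ 2 * n * (cn n * (K' * Real.log n ^ 3)) := by gcongr
      _ ≤ 2 * n * (cn n * (K' * (8 * Real.log M ^ 3))) := by gcongr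
      _ = cn n * ((16 * K') * (n * Real.log M ^ 3)) := by ring
      _ ≤ cn n * ((2 * K + 1000 * K') * (n * Real.log M ^ 3)) := by
          refine mul_le_mul_of_nonneg_left ?_ (Nat.cast_nonneg _)
          refine mul_le_mul_of_nonneg_right ?_ (by positivity)
          linarith
      _ = _ := by ring
  · have hlog := log_ratio (m := M) (n := n) hM (by omega)
    have h1 : ∀ ω ∈ W n, (LL n M ω : ℝ) ≤
        2 * ∑ i ∈ Finset.range (n + 1 - 2 * M), (TT (2 * M) M (pc i (2 * M) ω) : ℝ) +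
          4 * M * J ω := by
      intro ω _
      have h2 := sum_TM_le (hJ ω) h
      have h3 := hLL ω
      linarith
    calc ∑ ω ∈ W n, (LL n M ω : ℝ)
        ≤ ∑ ω ∈ W n, (2 * ∑ i ∈ Finset.range (n + 1 - 2 * M),
          (TT (2 * M) M (pc i (2 * M) ω) : ℝ) + 4 * M * J ω) := Finset.sum_le_sum h1
      _ = 2 * ∑ i ∈ Finset.range (n + 1 - 2 * M), ∑ ω ∈ W n,
          (TT (2 * M) M (pc i (2 * M) ω) : ℝ) + 4 * M * ∑ ω ∈ W n, J ω := by
          rw [Finset.sum_add_distrib, ← Finset.mul_sum, ← Finset.mul_sum, Finset.sum_comm]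
      _ ≤ 2 * (cn n * (K * n * Real.log M ^ 3)) + 4 * M * (cn n * (K' * Real.log n ^ 3)) := by
          have := hwin M n hM h
          gcongr
      _ = cn n * (2 * K * n * Real.log M ^ 3 + 4 * K' * (M * Real.log n ^ 3)) := by ring
      _ ≤ cn n * (2 * K * n * Real.log M ^ 3 + 4 * K' * (216 * n * Real.log M ^ 3)) := by
          gcongr
      _ = cn n * ((2 * K + 864 * K') * (n * Real.log M ^ 3)) := by ring
      _ ≤ cn n * ((2 * K + 1000 * K') * (n * Real.log M ^ 3)) := by
          refine mul_le_mul_of_nonneg_left ?_ (Nat.cast_nonneg _)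
          refine mul_le_mul_of_nonneg_right ?_ (by positivity)
          linarith
      _ = _ := by ring

/-- contacts with lag in `(s, 2s]` -/
theorem FF_step (n s : ℕ) (ω : Fin (n + 1) → ℤ × ℤ) :
    s * FF n s ω ≤ LL n (2 * s) ω + s * FF n (2 * s) ω := by
  unfold FF
  set A := (Finset.univ : Finset (Fin (n + 1) × Fin (n + 1))).filter
      (fun q => q.1.1 + s < q.2.1 ∧ q.2.1 ≤ q.1.1 + 2 * s ∧ adj (ω q.1) (ω q.2)) with hA
  have hsub : (Finset.univ : Finset (Fin (n + 1) × Fin (n + 1))).filter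
      (fun q => q.1.1 + s < q.2.1 ∧ adj (ω q.1) (ω q.2)) ⊆
      A ∪ (Finset.univ : Finset (Fin (n + 1) × Fin (n + 1))).filter
      (fun q => q.1.1 + 2 * s < q.2.1 ∧ adj (ω q.1) (ω q.2)) := by
    intro q hq
    simp only [hA, Finset.mem_union, Finset.mem_filter, Finset.mem_univ, true_and] at hq ⊢
    obtain ⟨h1, h2⟩ := hq
    by_cases h3 : q.1.1 + 2 * s < q.2.1
    · exact Or.inr ⟨h3, h2⟩
    · exact Or.inl ⟨h1, by omega, h2⟩
  have h1 := (Finset.card_le_card hsub).trans (Finset.card_union_le _ _)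
  have h2 : s * A.card ≤ LL n (2 * s) ω := by
    unfold LL
    calc s * A.card = ∑ q ∈ A, s := by rw [Finset.sum_const, smul_eq_mul, mul_comm]
      _ ≤ ∑ q ∈ A, (q.2.1 - q.1.1) := by
          refine Finset.sum_le_sum (fun q hq => ?_)
          simp only [hA, Finset.mem_filter, Finset.mem_univ, true_and] at hq
          omega
      _ ≤ _ := by
          rcases Nat.eq_zero_or_pos s with h0 | h0
          · have : A = ∅ := by
              rw [hA, Finset.filter_eq_empty_iff]
              rintro q - ⟨h3, h4, -⟩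
              omega
            rw [this, Finset.sum_empty]
            exact Nat.zero_le _
          · refine Finset.sum_le_sum_of_subset ?_
            intro q hq
            simp only [hA, CP, Finset.mem_filter, Finset.mem_univ, true_and] at hq ⊢
            exact ⟨by omega, hq.2.1, hq.2.2⟩
  have h3 := Nat.mul_le_mul_left s h1
  rw [mul_add] at h3
  omega

theorem FF_scales (n m : ℕ) (hm : 1 ≤ m) (ω : Fin (n + 1) → ℤ × ℤ) (κ : ℕ) :
    (FF n m ω : ℝ) ≤ ∑ k ∈ Finset.range κ, ((LL n (2 ^ (k + 1) * m) ω : ℝ) / (2 ^ k * m)) +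
      FF n (2 ^ κ * m) ω := by
  induction κ with
  | zero => simp
  | succ κ ih =>
    rw [Finset.sum_range_succ]
    have h0 : (0 : ℝ) < 2 ^ κ * m := by
      have : (0 : ℝ) < m := by exact_mod_cast hm
      positivity
    have h1 := FF_step n (2 ^ κ * m) ω
    have h2 : ((2 ^ κ * m : ℕ) : ℝ) * FF n (2 ^ κ * m) ω ≤ LL n (2 * (2 ^ κ * m)) ω +
        ((2 ^ κ * m : ℕ) : ℝ) * FF n (2 * (2 ^ κ * m)) ω := by exact_mod_cast h1
    have e1 : (((2 ^ κ * m : ℕ)) : ℝ) = 2 ^ κ * m := by push_cast; ring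
    have e2 : 2 ^ (κ + 1) * m = 2 * (2 ^ κ * m) := by ring
    rw [e1] at h2
    rw [e2]
    have h3 : (FF n (2 ^ κ * m) ω : ℝ) ≤ (LL n (2 * (2 ^ κ * m)) ω : ℝ) / (2 ^ κ * m) +
        FF n (2 * (2 ^ κ * m)) ω := by
      have h4 : (FF n (2 ^ κ * m) ω : ℝ) - FF n (2 * (2 ^ κ * m)) ω ≤
          (LL n (2 * (2 ^ κ * m)) ω : ℝ) / (2 ^ κ * m) := by
        rw [le_div_iff₀ h0]
        linarith
      linarith
    linarith

theorem cube_sum (κ : ℕ) : ∑ k ∈ Finset.range κ, ((k : ℝ) + 1) ^ 3 / 2 ^ k =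
    52 - (2 * (κ : ℝ) ^ 3 + 12 * (κ : ℝ) ^ 2 + 36 * κ + 52) / 2 ^ κ := by
  induction κ with
  | zero => norm_num
  | succ κ ih =>
    rw [Finset.sum_range_succ, ih]
    push_cast
    field_simp
    ring

/-- uniform bound for the number of contacts with lag more than `m` -/
theorem far_mean : ∃ K : ℝ, 0 ≤ K ∧ ∀ m n : ℕ, 2 ≤ m → 2 ≤ n →
    ∑ ω ∈ W n, (FF n m ω : ℝ) ≤ cn n * (K * (n / m) * Real.log m ^ 3) := by
  obtain ⟨K, hK, hloop⟩ := loop_mean
  refine ⟨416 * K, by positivity, fun m n hm hn => ?_⟩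
  obtain ⟨hL1, hL2⟩ := L_ge hm
  have hm' : (2 : ℝ) ≤ m := by exact_mod_cast hm
  have hzero : ∀ ω, FF n (2 ^ n * m) ω = 0 := by
    intro ω
    unfold FF
    rw [Finset.card_eq_zero, Finset.filter_eq_empty_iff]
    rintro q - ⟨h1, -⟩
    have h2 := q.2.2
    have h3 := Nat.lt_two_pow_self (n := n)
    have h4 : 2 ^ n * 1 ≤ 2 ^ n * m := Nat.mul_le_mul_left _ (by omega)
    omega
  calc ∑ ω ∈ W n, (FF n m ω : ℝ)
      ≤ ∑ ω ∈ W n, ∑ k ∈ Finset.range n, ((LL n (2 ^ (k + 1) * m) ω : ℝ) / (2 ^ k * m)) := by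
        refine Finset.sum_le_sum (fun ω _ => ?_)
        have h1 := FF_scales n m (by omega) ω n
        rw [hzero, Nat.cast_zero, add_zero] at h1
        exact h1
    _ = ∑ k ∈ Finset.range n, (∑ ω ∈ W n, (LL n (2 ^ (k + 1) * m) ω : ℝ)) / (2 ^ k * m) := by
        rw [Finset.sum_comm]
        refine Finset.sum_congr rfl (fun k _ => ?_)
        rw [Finset.sum_div]
    _ ≤ ∑ k ∈ Finset.range n, cn n * (8 * K * (n / m) * Real.log m ^ 3) *
          (((k : ℝ) + 1) ^ 3 / 2 ^ k) := by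
        refine Finset.sum_le_sum (fun k _ => ?_)
        have hk1 : 1 ≤ 2 ^ (k + 1) := Nat.one_le_two_pow
        have h1 := hloop (2 ^ (k + 1) * m) n (by nlinarith) hn
        have e1 : (((2 ^ (k + 1) * m : ℕ)) : ℝ) = 2 ^ (k + 1) * m := by push_cast; ring
        have h2 : Real.log (((2 ^ (k + 1) * m : ℕ)) : ℝ) ≤ 2 * (k + 1) * Real.log m := by
          rw [e1, Real.log_mul (by positivity) (by linarith), Real.log_pow]
          have h3 : Real.log 2 ≤ Real.log m := Real.log_le_log (by norm_num) hm'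
          have h4 : ((k + 1 : ℕ) : ℝ) * Real.log 2 ≤ ((k + 1 : ℕ) : ℝ) * Real.log m :=
            mul_le_mul_of_nonneg_left h3 (Nat.cast_nonneg _)
          push_cast at h4 ⊢
          nlinarith [mul_nonneg (Nat.cast_nonneg (α := ℝ) k) (by linarith : (0 : ℝ) ≤ Real.log m)]
        have h3 : Real.log (((2 ^ (k + 1) * m : ℕ)) : ℝ) ^ 3 ≤ (2 * (k + 1) * Real.log m) ^ 3 :=
          pow_le_pow_left₀ (Real.log_natCast_nonneg _) h2 3
        have h0 : (0 : ℝ) < 2 ^ k * m := by positivity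
        rw [div_le_iff₀ h0]
        calc ∑ ω ∈ W n, (LL n (2 ^ (k + 1) * m) ω : ℝ)
            ≤ cn n * (K * n * Real.log (((2 ^ (k + 1) * m : ℕ)) : ℝ) ^ 3) := h1
          _ ≤ cn n * (K * n * (2 * (k + 1) * Real.log m) ^ 3) := by gcongr
          _ = _ := by
              field_simp
              ring
    _ = cn n * (8 * K * (n / m) * Real.log m ^ 3) *
          ∑ k ∈ Finset.range n, (((k : ℝ) + 1) ^ 3 / 2 ^ k) := by rw [Finset.mul_sum]
    _ ≤ cn n * (8 * K * (n / m) * Real.log m ^ 3) * 52 := by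
        refine mul_le_mul_of_nonneg_left ?_ (by positivity)
        rw [cube_sum]
        have : (0 : ℝ) ≤ (2 * (n : ℝ) ^ 3 + 12 * (n : ℝ) ^ 2 + 36 * n + 52) / 2 ^ n := by
          positivity
        linarith
    _ = _ := by ring

end Pool.Agent.TH546.SAW
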