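import Pool.Agent.W840.CT.Pair

/-! # Pieces of a self-avoiding walk -/

set_option autoImplicit false

namespace Pool.Agent.TH546.SAW

open scoped Classical
open Pool.Agent.W840.CT

/-- the finite set of self-avoiding walks with `n` steps -/
noncomputable def W (n : ℕ) : Finset (Fin (n + 1) → ℤ × ℤ) := (SW_finite n).toFinset

theorem mem_W {n : ℕ} {ω : Fin (n + 1) → ℤ × ℤ} : ω ∈ W n ↔ SW n ω := by
  unfold W
  rw [Set.Finite.mem_toFinset]
  rfl

theorem card_W (n : ℕ) : (W n).card = cn n := by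
  unfold W cn
  rw [← Set.ncard_eq_toFinset_card _ (SW_finite n)]
  exact (Nat.card_coe_set_eq _).symm

theorem card_filter_W (n : ℕ) (P : (Fin (n + 1) → ℤ × ℤ) → Prop) [DecidablePred P] :
    ((W n).filter P).card =
      ({ω | SW n ω ∧ P ω} : Set (Fin (n + 1) → ℤ × ℤ)).ncard := by
  rw [← Set.ncard_coe_finset]
  congr 1
  ext ω
  simp only [Finset.coe_filter, mem_W]

/-- the piece with `m` steps which starts at time `i`, shifted to the origin -/
noncomputable def pc {n : ℕ} (i m : ℕ) (ω : Fin (n + 1) → ℤ × ℤ) : Fin (m + 1) → ℤ × ℤ :=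
  fun k => ex ω (i + k.1) - ex ω i

theorem ex_pc {n i m k : ℕ} (ω : Fin (n + 1) → ℤ × ℤ) (hk : k ≤ m) :
    ex (pc i m ω) k = ex ω (i + k) - ex ω i := by
  have h := ex_val (pc i m ω) ⟨k, by omega⟩
  simp only at h
  rw [h]
  rfl

theorem pc_mem {n i m : ℕ} {ω : Fin (n + 1) → ℤ × ℤ} (h : SW n ω) (hi : i + m ≤ n) :
    SW m (pc i m ω) := by
  refine SW_of (g := fun k => ex ω (i + k) - ex ω i) (by simp) ?_ ?_
  · intro k hk
    rw [adj_sub]
    exact h.step (i := i + k) (by omega)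
  · intro k l hk hl hkl
    have := h.inj (by omega) (by omega) (sub_left_injective hkl)
    omega

theorem pc_pc {n i m k l : ℕ} (ω : Fin (n + 1) → ℤ × ℤ) (hk : k + l ≤ m) :
    pc k l (pc i m ω) = pc (i + k) l ω := by
  funext j
  have hj := j.2
  unfold pc
  have h1 := ex_pc (i := i) (m := m) (k := k + j.1) ω (by omega)
  have h2 := ex_pc (i := i) (m := m) (k := k) ω (by omega)
  unfold pc at h1 h2
  rw [h1, h2, ← add_assoc]
  simp only [sub_sub_sub_cancel_right]

theorem pc_zero_self {n : ℕ} {ω : Fin (n + 1) → ℤ × ℤ} (h : SW n ω) : pc 0 n ω = ω := by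
  funext j
  unfold pc
  rw [h.zero, zero_add, sub_zero, ex_val]

theorem pc_inj {n a b : ℕ} {ω ω' : Fin (n + 1) → ℤ × ℤ} (h : SW n ω) (h' : SW n ω')
    (hab : a + b = n) (h1 : pc 0 a ω = pc 0 a ω') (h2 : pc a b ω = pc a b ω') : ω = ω' := by
  have e1 : ∀ k ≤ a, ex ω k = ex ω' k := by
    intro k hk
    have := ex_pc (i := 0) (m := a) (k := k) ω hk
    have h3 := ex_pc (i := 0) (m := a) (k := k) ω' hk
    rw [h1, h3, h.zero, h'.zero, zero_add, sub_zero, sub_zero] at this
    exact this.symm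
  refine ex_ext (fun k hk => ?_)
  rcases Nat.le_total k a with hka | hka
  · exact e1 k hka
  · have := ex_pc (i := a) (m := b) (k := k - a) ω (by omega)
    have h3 := ex_pc (i := a) (m := b) (k := k - a) ω' (by omega)
    rw [h2, h3, show a + (k - a) = k by omega, e1 a le_rfl] at this
    exact (sub_left_injective this).symm

/-- splitting a walk into two pieces -/
theorem sum_split {n a b : ℕ} (hab : a + b = n) (F : (Fin (a + 1) → ℤ × ℤ) → ℝ)
    (G : (Fin (b + 1) → ℤ × ℤ) → ℝ) (hF : ∀ v, 0 ≤ F v) (hG : ∀ v, 0 ≤ G v) :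
    ∑ ω ∈ W n, F (pc 0 a ω) * G (pc a b ω) ≤ (∑ v ∈ W a, F v) * ∑ v ∈ W b, G v := by
  rw [Finset.sum_mul_sum, ← Finset.sum_product']
  have hinj : Set.InjOn (fun ω : Fin (n + 1) → ℤ × ℤ => (pc 0 a ω, pc a b ω)) (W n) := by
    intro ω hω ω' hω' h
    simp only [Prod.mk.injEq] at h
    exact pc_inj (mem_W.1 hω) (mem_W.1 hω') hab h.1 h.2
  have h1 : ∑ ω ∈ W n, F (pc 0 a ω) * G (pc a b ω) =
      ∑ q ∈ (W n).image (fun ω => (pc 0 a ω, pc a b ω)), F q.1 * G q.2 := by
    rw [Finset.sum_image hinj]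
  rw [h1]
  refine Finset.sum_le_sum_of_subset_of_nonneg ?_ (fun q _ _ => mul_nonneg (hF _) (hG _))
  intro q hq
  rw [Finset.mem_image] at hq
  obtain ⟨ω, hω, rfl⟩ := hq
  rw [Finset.mem_product]
  exact ⟨mem_W.2 (pc_mem (mem_W.1 hω) (by omega)), mem_W.2 (pc_mem (mem_W.1 hω) (by omega))⟩

/-- a product over consecutive pieces -/
theorem sum_prod0 (i m : ℕ) (g : ℕ → (Fin (m + 1) → ℤ × ℤ) → ℝ) (hg : ∀ k v, 0 ≤ g k v)
    (N : ℕ) : ∀ n, n = i + N * m →
    ∑ ω ∈ W n, ∏ k ∈ Finset.range N, g k (pc (i + k * m) m ω) ≤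
      cn i * ∏ k ∈ Finset.range N, ∑ v ∈ W m, g k v := by
  induction N with
  | zero =>
    intro n hn
    have : n = i := by omega
    subst this
    simp only [Finset.range_zero, Finset.prod_empty, Finset.sum_const, nsmul_eq_mul, mul_one]
    rw [card_W]
  | succ N ih =>
    intro n hn
    have hn' : (i + N * m) + m = n := by rw [hn]; ring
    have h1 : ∀ ω ∈ W n, ∏ k ∈ Finset.range (N + 1), g k (pc (i + k * m) m ω) =
        (fun v => ∏ k ∈ Finset.range N, g k (pc (i + k * m) m v)) (pc 0 (i + N * m) ω) *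
          g N (pc (i + N * m) m ω) := by
      intro ω hω
      rw [Finset.prod_range_succ]
      congr 1
      refine Finset.prod_congr rfl (fun k hk => ?_)
      rw [Finset.mem_range] at hk
      rw [pc_pc, zero_add]
      have : (k + 1) * m ≤ N * m := Nat.mul_le_mul_right _ hk
      rw [add_mul, one_mul] at this
      omega
    rw [Finset.sum_congr rfl h1]
    refine (sum_split hn' (fun v => ∏ k ∈ Finset.range N, g k (pc (i + k * m) m v)) (g N)
      (fun v => Finset.prod_nonneg (fun k _ => hg _ _)) (hg N)).trans ?_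
    rw [Finset.prod_range_succ, ← mul_assoc]
    exact mul_le_mul_of_nonneg_right (ih _ rfl) (Finset.sum_nonneg (fun v _ => hg _ _))

theorem sum_prod (i m r : ℕ) (g : ℕ → (Fin (m + 1) → ℤ × ℤ) → ℝ) (hg : ∀ k v, 0 ≤ g k v)
    (N n : ℕ) (hn : n = i + N * m + r) :
    ∑ ω ∈ W n, ∏ k ∈ Finset.range N, g k (pc (i + k * m) m ω) ≤
      cn i * (∏ k ∈ Finset.range N, ∑ v ∈ W m, g k v) * cn r := by
  have h1 : ∀ ω ∈ W n, ∏ k ∈ Finset.range N, g k (pc (i + k * m) m ω) =
      (fun v => ∏ k ∈ Finset.range N, g k (pc (i + k * m) m v)) (pc 0 (i + N * m) ω) *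
        (fun _ => (1 : ℝ)) (pc (i + N * m) r ω) := by
    intro ω hω
    rw [mul_one]
    refine Finset.prod_congr rfl (fun k hk => ?_)
    rw [Finset.mem_range] at hk
    rw [pc_pc, zero_add]
    have : (k + 1) * m ≤ N * m := Nat.mul_le_mul_right _ hk
    rw [add_mul, one_mul] at this
    omega
  rw [Finset.sum_congr rfl h1]
  refine (sum_split hn.symm (fun v => ∏ k ∈ Finset.range N, g k (pc (i + k * m) m v))
    (fun _ => (1 : ℝ)) (fun v => Finset.prod_nonneg (fun k _ => hg _ _))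
    (fun v => zero_le_one)).trans ?_
  rw [Finset.sum_const, card_W, nsmul_eq_mul, mul_one]
  exact mul_le_mul_of_nonneg_right (sum_prod0 i m g hg N _ rfl) (Nat.cast_nonneg _)

end Pool.Agent.TH546.SAW
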