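import Pool.Agent.TH546.SAW.Loops2

/-! # Pieces of self-avoiding polygons -/

set_option autoImplicit false

namespace Pool.Agent.TH546.SAW

open scoped Classical
open Pool.Agent.W840.CT

/-- closed self-avoiding loop with `2n` steps, rooted at the origin -/
abbrev IsL (n : ℕ) (f : ZMod (2 * n) → ℤ × ℤ) : Prop := H981.IsLoop (2 * n) f

/-- the loop as a walk with `2n - 1` steps -/
def phi (n : ℕ) (f : ZMod (2 * n) → ℤ × ℤ) : Fin (2 * n - 1 + 1) → ℤ × ℤ :=
  fun k => f ((k.1 : ℕ) : ZMod (2 * n))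

theorem cast_inj {n : ℕ} {i j : ℕ} (hi : i < 2 * n) (hj : j < 2 * n)
    (h : ((i : ℕ) : ZMod (2 * n)) = (j : ℕ)) : i = j := by
  have h1 := (ZMod.natCast_eq_natCast_iff' i j (2 * n)).1 h
  rwa [Nat.mod_eq_of_lt hi, Nat.mod_eq_of_lt hj] at h1

theorem ex_phi {n : ℕ} (f : ZMod (2 * n) → ℤ × ℤ) {k : ℕ} (hk : k ≤ 2 * n - 1) :
    ex (phi n f) k = f ((k : ℕ) : ZMod (2 * n)) := by
  have h := ex_val (phi n f) ⟨k, by omega⟩
  simp only at h
  rw [h]
  rfl

theorem phi_mem {n : ℕ} (hn : 1 ≤ n) {f : ZMod (2 * n) → ℤ × ℤ} (hf : IsL n f) :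
    SW (2 * n - 1) (phi n f) := by
  obtain ⟨h0, h1, h2⟩ := hf
  refine SW_of (g := fun k => f ((k : ℕ) : ZMod (2 * n))) (by simpa using h0) ?_ ?_
  · intro i _
    have := h2 (i : ZMod (2 * n))
    unfold adj
    push_cast
    exact this
  · intro i j hi hj hij
    exact cast_inj (by omega) (by omega) (h1 hij)

theorem phi_inj {n : ℕ} (hn : 1 ≤ n) {f f' : ZMod (2 * n) → ℤ × ℤ} (h : phi n f = phi n f') :
    f = f' := by
  have : NeZero (2 * n) := ⟨by omega⟩
  funext i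
  have hi := ZMod.val_lt i
  have h1 := congrFun h ⟨i.val, by omega⟩
  unfold phi at h1
  simp only [ZMod.natCast_zmod_val] at h1
  exact h1

theorem IsL_finite {n : ℕ} (hn : 1 ≤ n) : ({f | IsL n f} : Set (ZMod (2 * n) → ℤ × ℤ)).Finite := by
  refine Set.Finite.of_finite_image ((SW_finite (2 * n - 1)).subset ?_)
    (fun f _ f' _ h => phi_inj hn h)
  rintro _ ⟨f, hf, rfl⟩
  exact phi_mem hn hf

/-- the finite set of rooted loops -/
noncomputable def PL (n : ℕ) : Finset (ZMod (2 * n) → ℤ × ℤ) :=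
  if h : ({f | IsL n f} : Set (ZMod (2 * n) → ℤ × ℤ)).Finite then h.toFinset else ∅

theorem mem_PL {n : ℕ} (hn : 1 ≤ n) {f : ZMod (2 * n) → ℤ × ℤ} : f ∈ PL n ↔ IsL n f := by
  unfold PL
  rw [dif_pos (IsL_finite hn), Set.Finite.mem_toFinset]
  rfl

theorem card_PL {n : ℕ} (hn : 1 ≤ n) : ((PL n).card : ℝ) = 4 * n * H981.PP n := by
  have h1 : (PL n).card = Nat.card {f : ZMod (2 * n) → ℤ × ℤ // H981.IsLoop (2 * n) f} := by
    unfold PL
    rw [dif_pos (IsL_finite hn), ← Set.ncard_eq_toFinset_card _ (IsL_finite hn)]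
    exact (Nat.card_coe_set_eq _).symm
  unfold H981.PP
  rw [← h1]
  have : (0 : ℝ) < n := by exact_mod_cast hn
  field_simp

/-- lower bound for the number of loops -/
theorem PL_lower : ∃ K : ℝ, 0 ≤ K ∧ ∀ N : ℕ, 2 ≤ N →
    H981.mu ^ (2 * N - 1) * Real.exp (-(K * Real.log N ^ 3)) ≤ (PL N).card := by
  obtain ⟨K, hK, h⟩ := Pool.Agent.W387.S.sq_PP3
  refine ⟨K, hK, fun N hN => ?_⟩
  have h1 := (h N hN).1
  rw [card_PL (by omega)]
  have hmu := H981.one_le_mu
  have h2 : H981.mu ^ (2 * N - 1) ≤ H981.mu ^ (2 * N) := pow_le_pow_right₀ hmu (by omega)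
  have hN' : (2 : ℝ) ≤ N := by exact_mod_cast hN
  have h3 : H981.mu ^ (2 * N - 1) * Real.exp (-(K * Real.log N ^ 3)) ≤ H981.PP N :=
    (mul_le_mul_of_nonneg_right h2 (Real.exp_pos _).le).trans h1
  have h4 : 0 < H981.mu ^ (2 * N - 1) * Real.exp (-(K * Real.log N ^ 3)) := by
    have := H981.mu_pos
    positivity
  nlinarith

theorem PL_nonempty {N : ℕ} (hN : 2 ≤ N) : (PL N).Nonempty := by
  obtain ⟨K, hK, h⟩ := PL_lower
  have h1 := h N hN
  have hmu := H981.mu_pos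
  have h2 : (0 : ℝ) < (PL N).card := lt_of_lt_of_le (by positivity) h1
  rw [← Finset.card_pos]
  exact_mod_cast h2

/-- the piece with `m` steps which starts at `i` -/
def pp {N : ℕ} (m : ℕ) (i : ZMod (2 * N)) (f : ZMod (2 * N) → ℤ × ℤ) : Fin (m + 1) → ℤ × ℤ :=
  fun k => f (i + ((k.1 : ℕ) : ZMod (2 * N))) - f i

/-- rerooting -/
def rt {N : ℕ} (i : ZMod (2 * N)) (f : ZMod (2 * N) → ℤ × ℤ) : ZMod (2 * N) → ℤ × ℤ :=
  fun j => f (i + j) - f i

theorem rt_mem {N : ℕ} {i : ZMod (2 * N)} {f : ZMod (2 * N) → ℤ × ℤ} (h : IsL N f) :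
    IsL N (rt i f) := by
  obtain ⟨h0, h1, h2⟩ := h
  refine ⟨by simp [rt], ?_, ?_⟩
  · intro a b hab
    have := h1 (sub_left_injective hab)
    exact add_left_cancel this
  · intro j
    have := h2 (i + j)
    unfold rt
    simp only [Prod.fst_sub, Prod.snd_sub, sub_sub_sub_cancel_right]
    rw [← add_assoc]
    exact this

theorem rt_rt {N : ℕ} {i : ZMod (2 * N)} {f : ZMod (2 * N) → ℤ × ℤ} (h : f 0 = 0) :
    rt (-i) (rt i f) = f := by
  funext j
  unfold rt
  simp [h]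

theorem pp_rt {N m : ℕ} {i : ZMod (2 * N)} {f : ZMod (2 * N) → ℤ × ℤ} :
    pp m 0 (rt i f) = pp m i f := by
  funext k
  unfold pp rt
  simp

/-- invariance under rerooting -/
theorem sum_rt {N : ℕ} (hN : 1 ≤ N) (i : ZMod (2 * N)) (F : (ZMod (2 * N) → ℤ × ℤ) → ℝ) :
    ∑ f ∈ PL N, F (rt i f) = ∑ f ∈ PL N, F f := by
  refine Finset.sum_nbij' (rt i) (rt (-i)) ?_ ?_ ?_ ?_ ?_
  · intro f hf
    rw [mem_PL hN] at hf ⊢
    exact rt_mem hf
  · intro f hf
    rw [mem_PL hN] at hf ⊢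
    exact rt_mem hf
  · intro f hf
    rw [mem_PL hN] at hf
    exact rt_rt hf.1
  · intro f hf
    rw [mem_PL hN] at hf
    have := rt_rt (i := -i) hf.1
    rwa [neg_neg] at this
  · intro f _
    rfl

theorem pc_phi {N m i : ℕ} (_hN : 1 ≤ N) (hi : i + m ≤ 2 * N - 1) (f : ZMod (2 * N) → ℤ × ℤ) :
    pc i m (phi N f) = pp m (i : ZMod (2 * N)) f := by
  funext k
  have hk := k.2
  unfold pc pp
  rw [ex_phi f (by omega), ex_phi f (by omega)]
  push_cast
  rfl

theorem pp_mem {N m : ℕ} (hN : 1 ≤ N) (hm : m ≤ 2 * N - 1) {i : ZMod (2 * N)}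
    {f : ZMod (2 * N) → ℤ × ℤ} (hf : IsL N f) : SW m (pp m i f) := by
  rw [← pp_rt]
  have h1 := pc_phi (N := N) (m := m) (i := 0) hN (by omega) (rt i f)
  rw [Nat.cast_zero] at h1
  rw [← h1]
  exact pc_mem (phi_mem hN (rt_mem hf)) (by omega)

/-- the average inequality for polygons; no average over the starting point is needed -/
theorem poly_avg : ∃ K : ℝ, 0 ≤ K ∧ ∀ m N : ℕ, 2 ≤ m → m ≤ 2 * N - 1 →
    ∀ g : (Fin (m + 1) → ℤ × ℤ) → ℝ, (∀ v, 0 ≤ g v) →
    (∀ f ∈ PL N, 0 < g (pp m 0 f)) →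
    ∑ f ∈ PL N, Real.log (g (pp m 0 f)) ≤
      (PL N).card * (Real.log (∑ v ∈ W m, g v) - m * Real.log H981.mu +
        K * Real.log m ^ 3) := by
  obtain ⟨K1, hK1, hu⟩ := cn_upper
  obtain ⟨K2, hK2, hl⟩ := PL_lower
  refine ⟨2 * K1 + 432 * K2, by positivity, fun m N hm hmN g hg hpos => ?_⟩
  obtain ⟨hL1, hL2⟩ := L_ge hm
  have hN2 : 2 ≤ N := by omega
  have hN1 : 1 ≤ N := by omega
  have hmu := H981.mu_pos
  have hm' : (2 : ℝ) ≤ m := by exact_mod_cast hm
  set R := (2 * N - 1) / m with hR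
  set r := (2 * N - 1) % m with hr
  have hrm : r < m := Nat.mod_lt _ (by omega)
  have hn : 2 * N - 1 = 0 + R * m + r := by
    have := Nat.div_add_mod (2 * N - 1) m
    rw [← hR, ← hr, mul_comm] at this
    omega
  have hR1 : 1 ≤ R := (Nat.le_div_iff_mul_le (by omega)).2 (by omega)
  have hR1' : (1 : ℝ) ≤ R := by exact_mod_cast hR1
  set L := ((PL N).card : ℝ) with hL
  have hL0 : 0 < L := by
    rw [hL]
    exact_mod_cast (PL_nonempty hN2).card_pos
  set Z := ∑ v ∈ W m, g v with hZ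
  have hZ0 : 0 < Z := by
    obtain ⟨f, hf⟩ := PL_nonempty hN2
    exact Finset.sum_pos' (fun v _ => hg v)
      ⟨pp m 0 f, mem_W.2 (pp_mem hN1 hmN ((mem_PL hN1).1 hf)), hpos f hf⟩
  have hk : ∀ k ∈ Finset.range R, 0 + k * m + m ≤ 2 * N - 1 := by
    intro k hk
    rw [Finset.mem_range] at hk
    have : (k + 1) * m ≤ R * m := Nat.mul_le_mul_right _ hk
    rw [add_mul, one_mul] at this
    omega
  -- the product over the pieces
  have h1 := sum_prod 0 m r (fun _ v => g v) (fun _ v => hg v) R (2 * N - 1) hn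
  have h2 : ∑ f ∈ PL N, ∏ k ∈ Finset.range R, g (pc (0 + k * m) m (phi N f)) ≤
      ∑ ω ∈ W (2 * N - 1), ∏ k ∈ Finset.range R, g (pc (0 + k * m) m ω) := by
    rw [← Finset.sum_image (s := PL N) (g := phi N)
      (f := fun ω => ∏ k ∈ Finset.range R, g (pc (0 + k * m) m ω))
      (fun f _ f' _ h => phi_inj hN1 h)]
    refine Finset.sum_le_sum_of_subset_of_nonneg ?_
      (fun ω _ _ => Finset.prod_nonneg (fun k _ => hg _))
    intro ω hω
    rw [Finset.mem_image] at hω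
    obtain ⟨f, hf, rfl⟩ := hω
    exact mem_W.2 (phi_mem hN1 ((mem_PL hN1).1 hf))
  have e3 : ∀ f ∈ PL N, ∀ k ∈ Finset.range R, pc (0 + k * m) m (phi N f) =
      pp m 0 (rt ((0 + k * m : ℕ) : ZMod (2 * N)) f) := by
    intro f _ k hkR
    rw [pc_phi hN1 (hk k hkR), pp_rt]
  have hpos' : ∀ f ∈ PL N, ∀ k ∈ Finset.range R, 0 < g (pc (0 + k * m) m (phi N f)) := by
    intro f hf k hkR
    rw [e3 f hf k hkR]
    exact hpos _ ((mem_PL hN1).2 (rt_mem ((mem_PL hN1).1 hf)))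
  have h4 := jensen (PL N) (PL_nonempty hN2)
    (fun f => ∏ k ∈ Finset.range R, g (pc (0 + k * m) m (phi N f)))
    (fun f hf => Finset.prod_pos (fun k hkR => hpos' f hf k hkR)) (h2.trans h1)
  have h5 : ∑ f ∈ PL N, Real.log (∏ k ∈ Finset.range R, g (pc (0 + k * m) m (phi N f))) =
      R * ∑ f ∈ PL N, Real.log (g (pp m 0 f)) := by
    have e4 : ∀ f ∈ PL N, Real.log (∏ k ∈ Finset.range R, g (pc (0 + k * m) m (phi N f))) =
        ∑ k ∈ Finset.range R,
          Real.log (g (pp m 0 (rt ((0 + k * m : ℕ) : ZMod (2 * N)) f))) := by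
      intro f hf
      rw [Real.log_prod (fun k hkR => (hpos' f hf k hkR).ne')]
      refine Finset.sum_congr rfl (fun k hkR => ?_)
      rw [e3 f hf k hkR]
    rw [Finset.sum_congr rfl e4, Finset.sum_comm]
    have e5 : ∀ k ∈ Finset.range R,
        ∑ f ∈ PL N, Real.log (g (pp m 0 (rt ((0 + k * m : ℕ) : ZMod (2 * N)) f))) =
        ∑ f ∈ PL N, Real.log (g (pp m 0 f)) := fun k _ =>
      sum_rt hN1 ((0 + k * m : ℕ) : ZMod (2 * N)) (fun f => Real.log (g (pp m 0 f)))
    rw [Finset.sum_congr rfl e5, Finset.sum_const, Finset.card_range, nsmul_eq_mul]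
  rw [h5] at h4
  set X := ∑ f ∈ PL N, Real.log (g (pp m 0 f)) with hX
  have hc0 : (0 : ℝ) < cn 0 := lt_of_lt_of_le one_pos (cn_pos 0)
  have hcr : (0 : ℝ) < cn r := lt_of_lt_of_le one_pos (cn_pos r)
  rw [Finset.prod_const, Finset.card_range, Real.log_mul (by positivity) hcr.ne',
    Real.log_mul hc0.ne' (by positivity), Real.log_pow] at h4
  have hlog0 : Real.log (cn 0) ≤ K1 * Real.log m ^ 3 := by
    have h6 := Real.log_le_log hc0 (hu m hm 0 (by omega))
    rw [pow_zero, one_mul, Real.log_exp] at h6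
    exact h6
  have hlogr : Real.log (cn r) ≤ r * Real.log H981.mu + K1 * Real.log m ^ 3 := by
    have h6 := Real.log_le_log hcr (hu m hm r hrm.le)
    rw [Real.log_mul (by positivity) (Real.exp_pos _).ne', Real.log_exp, Real.log_pow] at h6
    exact h6
  have hlogL : ((2 * N - 1 : ℕ) : ℝ) * Real.log H981.mu - K2 * Real.log N ^ 3 ≤ Real.log L := by
    have h6 := Real.log_le_log (by positivity) (hl N hN2)
    rw [Real.log_mul (by positivity) (Real.exp_pos _).ne', Real.log_exp, Real.log_pow] at h6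
    rw [hL]
    linarith
  have hnR : ((2 * N - 1 : ℕ) : ℝ) = R * m + r := by
    rw [hn]; push_cast; ring
  rw [hnR] at hlogL
  have hlogN : Real.log N ^ 3 ≤ 432 * R * Real.log m ^ 3 := by
    rcases Nat.lt_or_ge N m with h6 | h6
    · have h7 : Real.log N ≤ Real.log m :=
        Real.log_le_log (by exact_mod_cast hN1) (by exact_mod_cast h6.le)
      have h8 : Real.log N ^ 3 ≤ Real.log m ^ 3 :=
        pow_le_pow_left₀ (Real.log_natCast_nonneg _) h7 3
      nlinarith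
    · have h7 := log_ratio hm h6
      have h8 : (N : ℝ) ≤ 2 * R * m := by
        have h9 : 2 * N - 1 < (R + 1) * m := by
          rw [hn, add_mul, one_mul]; omega
        have h10 : N ≤ 2 * R * m := by
          have : (R + 1) * m ≤ 2 * R * m := Nat.mul_le_mul_right _ (by omega)
          omega
        exact_mod_cast h10
      have hm0 : (0 : ℝ) < m := by linarith
      have h11 : m * Real.log N ^ 3 ≤ m * (432 * R * Real.log m ^ 3) := by
        calc m * Real.log N ^ 3 ≤ 216 * N * Real.log m ^ 3 := h7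
          _ ≤ 216 * (2 * R * m) * Real.log m ^ 3 := by gcongr
          _ = _ := by ring
      exact le_of_mul_le_mul_left h11 hm0
  have hR0 : (0 : ℝ) < R := by linarith
  have h12 : R * X ≤ R * (L * (Real.log Z - m * Real.log H981.mu +
      (2 * K1 + 432 * K2) * Real.log m ^ 3)) := by
    refine h4.trans ?_
    have e6 : R * (L * (Real.log Z - m * Real.log H981.mu +
      (2 * K1 + 432 * K2) * Real.log m ^ 3)) = L * (R * (Real.log Z - m * Real.log H981.mu +
      (2 * K1 + 432 * K2) * Real.log m ^ 3)) := by ring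
    rw [e6]
    refine mul_le_mul_of_nonneg_left ?_ hL0.le
    have h13 := mul_le_mul_of_nonneg_left hlogN hK2
    have h14 : 2 * K1 * Real.log m ^ 3 ≤ R * (2 * K1 * Real.log m ^ 3) := by
      have : 0 ≤ 2 * K1 * Real.log m ^ 3 := by positivity
      nlinarith
    linarith
  exact le_of_mul_le_mul_left h12 hR0

/-- the law of the piece with `m` steps of the uniform loop -/
noncomputable def plaw (N m : ℕ) (v : Fin (m + 1) → ℤ × ℤ) : ℝ :=
  (((PL N).filter (fun f => pp m 0 f = v)).card : ℝ) / (PL N).card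

theorem plaw_nonneg (N m : ℕ) (v : Fin (m + 1) → ℤ × ℤ) : 0 ≤ plaw N m v := by
  unfold plaw
  positivity

theorem sum_plaw_mul {N m : ℕ} (hN : 1 ≤ N) (hm : m ≤ 2 * N - 1)
    (F : (Fin (m + 1) → ℤ × ℤ) → ℝ) :
    ∑ v ∈ W m, plaw N m v * F v = (∑ f ∈ PL N, F (pp m 0 f)) / (PL N).card := by
  have h1 : ∑ f ∈ PL N, F (pp m 0 f) =
      ∑ v ∈ W m, ∑ f ∈ (PL N).filter (fun f => pp m 0 f = v), F (pp m 0 f) := by
    rw [Finset.sum_fiberwise_of_maps_to]
    intro f hf
    exact mem_W.2 (pp_mem hN hm ((mem_PL hN).1 hf))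
  rw [h1, Finset.sum_div]
  refine Finset.sum_congr rfl (fun v hv => ?_)
  have h2 : ∑ f ∈ (PL N).filter (fun f => pp m 0 f = v), F (pp m 0 f) =
      (((PL N).filter (fun f => pp m 0 f = v)).card : ℝ) * F v := by
    rw [← nsmul_eq_mul, ← Finset.sum_const]
    refine Finset.sum_congr rfl (fun f hf => ?_)
    rw [Finset.mem_filter] at hf
    rw [hf.2]
  rw [h2]
  unfold plaw
  ring

theorem sum_plaw {N m : ℕ} (hN : 2 ≤ N) (hm : m ≤ 2 * N - 1) : ∑ v ∈ W m, plaw N m v = 1 := by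
  have h := sum_plaw_mul (by omega) hm (fun _ => 1)
  simp only [mul_one, Finset.sum_const, nsmul_eq_mul] at h
  have hL : (0 : ℝ) < (PL N).card := by exact_mod_cast (PL_nonempty hN).card_pos
  rw [h, div_self hL.ne']

/-- relative entropy of consecutive pieces of a polygon -/
theorem poly_entropy : ∃ K : ℝ, 0 ≤ K ∧ ∀ m j N : ℕ, 2 ≤ m → 1 ≤ j → j * m ≤ 2 * N - 1 →
    ∑ v ∈ W (j * m), plaw N (j * m) v * Real.log (plaw N (j * m) v * (cn m : ℝ) ^ j) ≤
      K * j * Real.log m ^ 3 := by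
  obtain ⟨K, hK, h⟩ := poly_avg
  obtain ⟨K', hK', hu⟩ := cn_upper
  refine ⟨K' + 400 * K, by positivity, fun m j N hm hj hjN => ?_⟩
  obtain ⟨h1, h2⟩ := L_ge hm
  have hj' : (1 : ℝ) ≤ j := by exact_mod_cast hj
  set M := j * m with hM
  have hM2 : 2 ≤ M := by
    have : 1 * m ≤ j * m := Nat.mul_le_mul_right _ hj
    omega
  have hN2 : 2 ≤ N := by omega
  have hL : (0 : ℝ) < (PL N).card := by exact_mod_cast (PL_nonempty hN2).card_pos
  have hcm : (0 : ℝ) < cn m := lt_of_lt_of_le one_pos (cn_pos m)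
  have hmu := H981.mu_pos
  have h3 := h M N hM2 hjN (fun v => plaw N M v) (fun v => plaw_nonneg _ _ _) (by
    intro f hf
    show 0 < plaw N M (pp M 0 f)
    unfold plaw
    refine div_pos ?_ hL
    rw [Nat.cast_pos, Finset.card_pos]
    exact ⟨f, Finset.mem_filter.2 ⟨hf, rfl⟩⟩)
  have hlogc : Real.log (cn m) ≤ m * Real.log H981.mu + K' * Real.log m ^ 3 := by
    have h4 := Real.log_le_log hcm (hu m hm m le_rfl)
    rw [Real.log_mul (by positivity) (Real.exp_pos _).ne', Real.log_exp, Real.log_pow] at h4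
    exact h4
  have h5 : ∑ v ∈ W M, plaw N M v * Real.log (plaw N M v * (cn m : ℝ) ^ j) =
      (∑ f ∈ PL N, Real.log (plaw N M (pp M 0 f))) / (PL N).card + j * Real.log (cn m) := by
    have e1 : ∀ v ∈ W M, plaw N M v * Real.log (plaw N M v * (cn m : ℝ) ^ j) =
        plaw N M v * Real.log (plaw N M v) + plaw N M v * (j * Real.log (cn m)) := by
      intro v _
      rcases eq_or_ne (plaw N M v) 0 with h0 | h0
      · rw [h0]; simp
      · rw [Real.log_mul h0 (by positivity), Real.log_pow]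
        ring
    rw [Finset.sum_congr rfl e1, Finset.sum_add_distrib,
      sum_plaw_mul (by omega) hjN (fun v => Real.log (plaw N M v)), ← Finset.sum_mul,
      sum_plaw hN2 hjN, one_mul]
  rw [h5]
  rw [sum_plaw hN2 hjN, Real.log_one, zero_sub] at h3
  have h6 : (∑ f ∈ PL N, Real.log (plaw N M (pp M 0 f))) / (PL N).card ≤
      -(M * Real.log H981.mu) + K * Real.log M ^ 3 := by
    rw [div_le_iff₀ hL, mul_comm _ ((PL N).card : ℝ)]
    exact h3
  have h7 : Real.log M ^ 3 ≤ 400 * j * Real.log m ^ 3 := log_cube_mul hm hj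
  have h8 := mul_le_mul_of_nonneg_left h7 hK
  have h9 : j * Real.log (cn m) ≤ j * (m * Real.log H981.mu + K' * Real.log m ^ 3) :=
    mul_le_mul_of_nonneg_left hlogc (by linarith)
  have h10 : (M : ℝ) * Real.log H981.mu = j * (m * Real.log H981.mu) := by
    rw [hM]; push_cast; ring
  linarith

end Pool.Agent.TH546.SAW
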